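import Pool.Agent.helper43.DHB.SpecB

/-!
# Project d2: (MP_5823cb_al): row bMEA: the mean over one digit
-/

set_option autoImplicit false

open Filter Topology MeasureTheory
open scoped commutatorElement

namespace Pool.Agent.helper90.DH

open Pool.Agent.helper64.D2

theorem bMEA_step (G : ℝ → ℝ) (N : ℕ) (hN : 0 < N) :
    (∫ v in (0 : ℝ)..1, G ((⌊(N : ℝ) * v⌋ : ℝ) / N)) = (∑ k ∈ Finset.range N, G ((k : ℝ) / N)) / N := by
  have hN' : (0 : ℝ) < N := by exact_mod_cast hN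
  have hle : ∀ k : ℕ, (k : ℝ) / N ≤ ((k + 1 : ℕ) : ℝ) / N := fun k => by
    push_cast
    gcongr
    linarith
  have hae : ∀ k : ℕ, ∀ᵐ v : ℝ, v ∈ Set.uIoc ((k : ℝ) / N) (((k + 1 : ℕ) : ℝ) / N) → G ((⌊(N : ℝ) * v⌋ : ℝ) / N) = G ((k : ℝ) / N) := by
    intro k
    filter_upwards [compl_mem_ae_iff.2 (measure_singleton (((k + 1 : ℕ) : ℝ) / N))] with v hv hm
    rw [Set.uIoc_of_le (hle k)] at hm
    have h1 : v < ((k + 1 : ℕ) : ℝ) / N := lt_of_le_of_ne hm.2 (by simpa using hv)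
    have h2 : ⌊(N : ℝ) * v⌋ = (k : ℤ) := by
      rw [Int.floor_eq_iff]
      constructor
      · have := hm.1
        rw [div_lt_iff₀ hN'] at this
        push_cast
        linarith
      · rw [lt_div_iff₀ hN'] at h1
        push_cast at h1 ⊢
        linarith
    rw [h2]
    push_cast
    rfl
  have hint : ∀ k < N, IntervalIntegrable (fun v => G ((⌊(N : ℝ) * v⌋ : ℝ) / N)) volume ((k : ℝ) / N) (((k + 1 : ℕ) : ℝ) / N) := by
    intro k _
    have h1 : IntervalIntegrable (fun _ : ℝ => G ((k : ℝ) / N)) volume ((k : ℝ) / N) (((k + 1 : ℕ) : ℝ) / N) := intervalIntegrable_const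
    refine h1.congr_ae ?_
    rw [Filter.EventuallyEq, ae_restrict_iff' measurableSet_uIoc]
    filter_upwards [hae k] with v hv hm
    exact (hv hm).symm
  have hsum := intervalIntegral.sum_integral_adjacent_intervals (f := fun v => G ((⌊(N : ℝ) * v⌋ : ℝ) / N)) (μ := volume) (a := fun k : ℕ => (k : ℝ) / N) (n := N) hint
  have h01 : ((N : ℕ) : ℝ) / N = 1 := div_self hN'.ne'
  simp only [Nat.cast_zero, zero_div, h01] at hsum
  rw [← hsum, Finset.sum_div]
  apply Finset.sum_congr rfl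
  intro k _
  rw [intervalIntegral.integral_congr_ae (hae k), intervalIntegral.integral_const]
  push_cast
  rw [smul_eq_mul]
  field_simp
  ring

theorem bMEA_jensen (φ : ℝ → ℝ) (hm : Measurable φ) (B : ℝ) (hB : ∀ v, |φ v| ≤ B) :
    ENNReal.ofReal ((∫ v in (0 : ℝ)..1, φ v) ^ 2) ≤ ∫⁻ v in Set.Ioc (0 : ℝ) 1, ENNReal.ofReal (φ v ^ 2) := by
  have hprob : IsProbabilityMeasure (volume.restrict (Set.Ioc (0 : ℝ) 1)) := ⟨by simp⟩
  have h1 : Integrable φ (volume.restrict (Set.Ioc (0 : ℝ) 1)) :=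
    Integrable.of_bound hm.aestronglyMeasurable B (ae_of_all _ fun v => by simpa using hB v)
  have h2 : Integrable (fun v => φ v ^ 2) (volume.restrict (Set.Ioc (0 : ℝ) 1)) :=
    Integrable.of_bound (hm.pow_const 2).aestronglyMeasurable (B ^ 2) (ae_of_all _ fun v => by
      rw [Real.norm_eq_abs, abs_pow]
      exact pow_le_pow_left₀ (abs_nonneg _) (hB v) 2)
  rw [intervalIntegral.integral_of_le zero_le_one, ← ofReal_integral_eq_lintegral_ofReal h2 (ae_of_all _ fun v => sq_nonneg _)]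
  apply ENNReal.ofReal_le_ofReal
  have h3 := (Even.convexOn_pow (n := 2) (by norm_num : Even 2)).map_integral_le (μ := volume.restrict (Set.Ioc (0 : ℝ) 1)) (f := φ)
    (continuous_pow 2).continuousOn isClosed_univ (ae_of_all _ fun v => Set.mem_univ _) h1 h2
  exact h3

theorem bMEA_nm {a b : ℝ} (hab : a ≤ b) {C : ℝ → ℝ} (h : NM a C) : NM b C :=
  ⟨h.cd, fun x => (h.sl x).trans hab, fun x => (h.ds x).trans hab⟩

theorem bMEA_fubini (Φ : ℝ → ℝ → ℝ) (hm : Measurable (Function.uncurry Φ)) (B c : ℝ) (hB : ∀ x v, |Φ x v| ≤ B)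
    (hc : 0 ≤ c)
    (hv : ∀ v ∈ Set.Ioc (0 : ℝ) 1, Integrable (fun x => Φ x v ^ 2) ∧ ∫ x, Φ x v ^ 2 ≤ c)
    (hi : Integrable (fun x => (∫ v in (0 : ℝ)..1, Φ x v) ^ 2)) :
    nsq (fun x => ∫ v in (0 : ℝ)..1, Φ x v) ≤ c := by
  have h1 : ENNReal.ofReal (nsq (fun x => ∫ v in (0 : ℝ)..1, Φ x v)) ≤ ENNReal.ofReal c := by
    unfold nsq
    rw [ofReal_integral_eq_lintegral_ofReal hi (ae_of_all _ fun x => sq_nonneg _)]
    calc ∫⁻ x, ENNReal.ofReal ((∫ v in (0 : ℝ)..1, Φ x v) ^ 2)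
        ≤ ∫⁻ x, ∫⁻ v in Set.Ioc (0 : ℝ) 1, ENNReal.ofReal (Φ x v ^ 2) := by
          apply lintegral_mono
          intro x
          exact bMEA_jensen (Φ x) (hm.comp measurable_prodMk_left) B (hB x)
      _ = ∫⁻ v in Set.Ioc (0 : ℝ) 1, ∫⁻ x, ENNReal.ofReal (Φ x v ^ 2) := by
          apply lintegral_lintegral_swap
          apply Measurable.aemeasurable
          exact (hm.pow_const 2).ennreal_ofReal
      _ ≤ ∫⁻ v in Set.Ioc (0 : ℝ) 1, ENNReal.ofReal c := by
          apply setLIntegral_mono measurable_const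
          intro v hv'
          obtain ⟨a1, a2⟩ := hv v hv'
          rw [← ofReal_integral_eq_lintegral_ofReal a1 (ae_of_all _ fun x => sq_nonneg _)]
          exact ENNReal.ofReal_le_ofReal a2
      _ = ENNReal.ofReal c := by simp
  exact (ENNReal.ofReal_le_ofReal_iff hc).1 h1

theorem bMEA (hbWIN : bWIN_stmt) (hbROB : bROB_stmt) (hbNMF : bNMF_stmt) (hbNIC : bNIC_stmt) : bMEA_stmt := by
  obtain ⟨KW, hKW, hWIN⟩ := hbWIN
  obtain ⟨KR, hKR, hROB⟩ := hbROB
  obtain ⟨-, hN2, hN3, -⟩ := hbNMF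
  obtain ⟨c1, c2, -, c4, c5, c6, -, -, -, c10, c11⟩ := hbNIC
  refine ⟨3 * KR + 2 * KW, by linarith, ?_⟩
  intro P B s N τ f hP hPd hB hτ hτ1 hN hNs hPA hSu hEs
  obtain ⟨hHNc, hHn⟩ := hWIN P B s τ f hP hPd hB hτ hτ1 hPA hSu hEs
  have hN' : (0 : ℝ) < N := by exact_mod_cast hN
  have hfNc : Nc f := c11 (s + 1) f hPA hSu
  obtain ⟨hfm, Bf, hfB, hfS⟩ := id hfNc
  have hBf0 : 0 ≤ Bf := (abs_nonneg _).trans (hfB 0)
  obtain ⟨hPc, -, -, hPl⟩ := hN3 P (1 / 100) (by norm_num) hP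
  obtain ⟨hBc, -, -, -⟩ := hN3 B (1 / 100) (by norm_num) hB
  -- the maps `x ↦ P (B x + c)`
  have hmap : ∀ c : ℝ, |c| ≤ 1 / 100 → NM (1 / 20) (fun x => P (B x + c)) := by
    intro c hc
    have := hN2 P B (1 / 100) (1 / 100) c (by norm_num) (by norm_num) hP hB
    exact bMEA_nm (by linarith) this
  have hcomp : ∀ c : ℝ, |c| ≤ 1 / 100 → Nc (fun x => f (P (B x + c))) := fun c hc =>
    (c10 _ (1 / 20) f (by norm_num) (hmap c hc) hfNc).1
  have hnf : 0 ≤ nsq f := integral_nonneg fun x => sq_nonneg _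
  set st : ℝ → ℝ := fun v => (⌊(N : ℝ) * v⌋ : ℝ) / N with hst
  have hst1 : ∀ v, st v ≤ v := by
    intro v
    simp only [hst]
    rw [div_le_iff₀ hN']
    have := Int.floor_le ((N : ℝ) * v)
    linarith
  have hst2 : ∀ v, v - st v ≤ 1 / N := by
    intro v
    simp only [hst]
    rw [sub_le_iff_le_add, ← add_div, le_div_iff₀ hN']
    have := Int.lt_floor_add_one ((N : ℝ) * v)
    linarith
  have hst3 : ∀ v, 0 < v → 0 ≤ st v := by
    intro v hv
    simp only [hst]
    have : (0 : ℝ) ≤ (⌊(N : ℝ) * v⌋ : ℝ) := by exact_mod_cast Int.floor_nonneg.2 (by positivity)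
    positivity
  have hstm : Measurable st := by
    have h1 : Measurable (fun v : ℝ => ⌊(N : ℝ) * v⌋) := Int.measurable_floor.comp (measurable_id.const_mul _)
    have h2 : Measurable (fun n : ℤ => (n : ℝ)) := measurable_from_top
    exact (h2.comp h1).div_const _
  set M : ℝ → ℝ := fun x => (∑ k ∈ Finset.range N, f (P (B x + τ * ((k : ℝ) / N)))) / N with hM
  set H : ℝ → ℝ := fun x => ∫ v in (0 : ℝ)..1, f (P (B x + τ * v)) with hH
  set Φ : ℝ → ℝ → ℝ := fun x v => f (P (B x + τ * st v)) - f (P (B x + τ * v)) with hΦ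
  have hMNc : Nc M := by
    have h1 := c4 ℕ (Finset.range N) (fun k x => f (P (B x + τ * ((k : ℝ) / N)))) (by
      intro k hk
      apply hcomp
      have hk' : (k : ℝ) ≤ N := by exact_mod_cast (Finset.mem_range.1 hk).le
      have : (k : ℝ) / N ≤ 1 := by rw [div_le_one hN']; exact hk'
      rw [abs_of_nonneg (by positivity)]
      calc τ * ((k : ℝ) / N) ≤ τ * 1 := by gcongr
        _ ≤ 1 / 100 := by linarith)
    exact (c2 _ (N : ℝ) h1).2.1
  have hm1 : Measurable (fun p : ℝ × ℝ => f (P (B p.1 + τ * st p.2))) := by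
    apply hfm.comp (hPc.measurable.comp _)
    exact (hBc.measurable.comp measurable_fst).add ((hstm.comp measurable_snd).const_mul _)
  have hm2 : Measurable (fun p : ℝ × ℝ => f (P (B p.1 + τ * p.2))) := by
    apply hfm.comp (hPc.measurable.comp _)
    exact (hBc.measurable.comp measurable_fst).add (measurable_snd.const_mul _)
  have hΦm : Measurable (Function.uncurry Φ) := hm1.sub hm2
  have hii : ∀ g : ℝ → ℝ, Measurable g → (∀ v, |g v| ≤ Bf) → IntervalIntegrable g volume 0 1 := by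
    intro g hg hb
    rw [intervalIntegrable_iff_integrableOn_Ioc_of_le zero_le_one]
    exact Integrable.of_bound hg.aestronglyMeasurable Bf (ae_of_all _ fun v => by simpa using hb v)
  have hdiff : ∀ x, (∫ v in (0 : ℝ)..1, Φ x v) = M x - H x := by
    intro x
    have e1 := bMEA_step (fun u => f (P (B x + τ * u))) N hN
    simp only [hΦ, hM, hH, hst]
    rw [intervalIntegral.integral_sub, e1]
    · exact hii _ (hm1.comp measurable_prodMk_left) (fun v => hfB _)
    · exact hii _ (hm2.comp measurable_prodMk_left) (fun v => hfB _)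
  have hDNc : Nc (fun x => M x - H x) := (c1 M H hMNc hHNc).2.1
  have hfun : (fun x => ∫ v in (0 : ℝ)..1, Φ x v) = fun x => M x - H x := funext hdiff
  -- the bound of the difference
  set η : ℝ := 101 / 100 * 2 ^ s * τ / N with hη
  have hη0 : 0 ≤ η := by positivity
  have hη1 : η ≤ 1 := by
    have : 2 ^ s * τ / N ≤ 1 / 2 := by
      have h2 : 2 * 2 ^ s * τ / N = 2 * (2 ^ s * τ / N) := by ring
      rw [h2] at hNs
      linarith
    calc η = 101 / 100 * (2 ^ s * τ / N) := by rw [hη]; ring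
      _ ≤ 101 / 100 * (1 / 2) := by gcongr
      _ ≤ 1 := by norm_num
  have hbd : nsq (fun x => M x - H x) ≤ KR * η * nsq f := by
    rw [← hfun]
    apply bMEA_fubini Φ hΦm (2 * Bf) _ _ (by positivity)
    · intro v hv
      have ha : |τ * st v| ≤ 1 / 100 := by
        rw [abs_of_nonneg (mul_nonneg hτ.le (hst3 v hv.1))]
        calc τ * st v ≤ τ * 1 := by
              gcongr
              exact (hst1 v).trans hv.2
          _ ≤ 1 / 100 := by linarith
      have hb : |τ * v| ≤ 1 / 100 := by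
        rw [abs_of_nonneg (mul_nonneg hτ.le hv.1.le)]
        calc τ * v ≤ τ * 1 := by
              gcongr
              exact hv.2
          _ ≤ 1 / 100 := by linarith
      have hN1 := (c1 _ _ (hcomp _ ha) (hcomp _ hb)).2.1
      refine ⟨(c5 _ hN1).2.1, ?_⟩
      have hrob := hROB (fun x => P (B x + τ * v)) (fun x => P (B x + τ * st v)) s η f (hmap _ hb) (hmap _ ha) hη0 hη1 (by
        intro x
        refine (hPl _ _).2.trans ?_
        have h3 : |B x + τ * st v - (B x + τ * v)| = τ * (v - st v) := by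
          have : B x + τ * st v - (B x + τ * v) = -(τ * (v - st v)) := by ring
          rw [this, abs_neg, abs_of_nonneg (mul_nonneg hτ.le (by linarith [hst1 v]))]
        rw [h3]
        have h4 : η / 2 ^ s = 101 / 100 * (τ * (1 / N)) := by
          rw [hη]; field_simp
        rw [h4]
        have h5 : τ * (v - st v) ≤ τ * (1 / N) := by
          gcongr
          exact hst2 v
        linarith) hPA hSu
      exact hrob
    · rw [show (fun x => (∫ v in (0 : ℝ)..1, Φ x v) ^ 2) = fun x => (M x - H x) ^ 2 from funext fun x => by rw [hdiff]]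
      exact (c5 _ hDNc).2.1
    · intro x v
      simp only [hΦ]
      calc |f (P (B x + τ * st v)) - f (P (B x + τ * v))| ≤ |f (P (B x + τ * st v))| + |f (P (B x + τ * v))| := abs_sub _ _
        _ ≤ 2 * Bf := by linarith [hfB (P (B x + τ * st v)), hfB (P (B x + τ * v))]
  -- Minkowski
  have hmink := c6 (fun x => M x - H x) H hDNc hHNc
  have hMeq : (fun x => M x - H x + H x) = M := funext fun x => by ring
  rw [hMeq] at hmink
  have hnM : 0 ≤ nsq M := integral_nonneg fun x => sq_nonneg _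
  have hnD : 0 ≤ nsq (fun x => M x - H x) := integral_nonneg fun x => sq_nonneg _
  have hnH : 0 ≤ nsq H := integral_nonneg fun x => sq_nonneg _
  have hfin : nsq M ≤ 2 * nsq (fun x => M x - H x) + 2 * nsq H := by
    have h6 : nsq M = √(nsq M) ^ 2 := (Real.sq_sqrt hnM).symm
    have h7 := Real.sq_sqrt hnD
    have h8 := Real.sq_sqrt hnH
    rw [h6]
    have h9 : √(nsq M) ^ 2 ≤ (√(nsq (fun x => M x - H x)) + √(nsq H)) ^ 2 := pow_le_pow_left₀ (Real.sqrt_nonneg _) hmink 2
    nlinarith [sq_nonneg (√(nsq (fun x => M x - H x)) - √(nsq H))]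
  calc nsq M ≤ 2 * nsq (fun x => M x - H x) + 2 * nsq H := hfin
    _ ≤ 2 * (KR * η * nsq f) + 2 * (KW * (1 / (2 ^ s * τ) + τ) ^ 2 * nsq f) := by gcongr
    _ ≤ (3 * KR + 2 * KW) * ((1 / (2 ^ s * τ) + τ) ^ 2 + 2 ^ s * τ / N) * nsq f := by
      have e1 : η = 101 / 100 * (2 ^ s * τ / N) := by rw [hη]; ring
      rw [e1]
      have h10 : 0 ≤ 2 ^ s * τ / (N : ℝ) := by positivity
      have h11 : 0 ≤ (1 / (2 ^ s * τ) + τ) ^ 2 := sq_nonneg _
      have h12 : 2 * (KR * (101 / 100 * (2 ^ s * τ / N))) + 2 * (KW * (1 / (2 ^ s * τ) + τ) ^ 2) ≤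
          (3 * KR + 2 * KW) * ((1 / (2 ^ s * τ) + τ) ^ 2 + 2 ^ s * τ / N) := by
        nlinarith [mul_nonneg (by linarith : (0:ℝ) ≤ KR) h10, mul_nonneg (by linarith : (0:ℝ) ≤ KR) h11, mul_nonneg (by linarith : (0:ℝ) ≤ KW) h10]
      calc 2 * (KR * (101 / 100 * (2 ^ s * τ / N)) * nsq f) + 2 * (KW * (1 / (2 ^ s * τ) + τ) ^ 2 * nsq f)
          = (2 * (KR * (101 / 100 * (2 ^ s * τ / N))) + 2 * (KW * (1 / (2 ^ s * τ) + τ) ^ 2)) * nsq f := by ring
        _ ≤ _ := by gcongr

end Pool.Agent.helper90.DH
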